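import Pool.Agent.H458.AG.Def

/-!
# Project AG (helper458): the 2-Selmer group and scaling by a square (helper295)

The plan is that of `Pool.Agent.H459.UD.sel_scale` (cubics).
-/

set_option autoImplicit false
set_option linter.all false

open Polynomial IsDedekindDomain NumberField
open scoped Classical

namespace Pool.Agent.H295.AG458

open Pool.Agent.N874.JM (LocF)
open Pool.Agent.N783.PQ (LocIm)
open Pool.Agent.N783.PF (fF SelZero)

section

variable {E : Type} [Field E]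

/-- The polynomial with the scaled roots. -/
theorem comp_scale (P : E[X]) (c : E) :
    (P.scaleRoots c).comp (C c * X) = C (c ^ P.natDegree) * P := by
  have h := scaleRoots_eval₂_mul (p := P) (C : E →+* E[X]) (X : E[X]) c
  rw [eval₂_C_X] at h
  rw [comp, h, C_pow]

theorem cxx {c : E} (hc : c ≠ 0) (q : E[X]) : (q.comp (C c⁻¹ * X)).comp (C c * X) = q := by
  rw [comp_assoc, mul_comp, C_comp, X_comp, ← mul_assoc, ← C_mul, inv_mul_cancel₀ hc, C_1, one_mul,
    comp_X]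

theorem cxx' {c : E} (hc : c ≠ 0) (q : E[X]) : (q.comp (C c * X)).comp (C c⁻¹ * X) = q := by
  have h := cxx (inv_ne_zero hc) q
  rwa [inv_inv] at h

theorem comp_scale' (P : E[X]) {c : E} (hc : c ≠ 0) :
    P.comp (C c⁻¹ * X) = C (c ^ P.natDegree)⁻¹ * P.scaleRoots c := by
  have h := congrArg (fun q : E[X] => q.comp (C c⁻¹ * X)) (comp_scale P c)
  simp only [mul_comp, C_comp] at h
  rw [cxx' hc] at h
  rw [h, ← mul_assoc, ← C_mul, inv_mul_cancel₀ (pow_ne_zero _ hc), C_1, one_mul]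

/-- The homomorphism `root ↦ c * root`. -/
theorem hom_ex (P : E[X]) (c : E) :
    ∃ φ : AdjoinRoot (P.scaleRoots c) →ₐ[E] AdjoinRoot P, ∀ q : E[X],
      φ (AdjoinRoot.mk _ q) = AdjoinRoot.mk P (q.comp (C c * X)) := by
  obtain ⟨ψ, hψ⟩ : ∃ ψ : E[X] →ₐ[E] AdjoinRoot P,
      ∀ q : E[X], ψ q = AdjoinRoot.mk P (q.comp (C c * X)) := by
    refine ⟨aeval (AdjoinRoot.mk P (C c * X)), fun q => ?_⟩
    have h := aeval_algHom_apply (AdjoinRoot.mkₐ P : E[X] →ₐ[E] AdjoinRoot P) (C c * X) q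
    have h2 : aeval (C c * X : E[X]) q = q.comp (C c * X) := by
      rw [comp, aeval_def]
      rfl
    rw [h2] at h
    exact h
  refine ⟨Ideal.Quotient.liftₐ _ ψ ?_, fun q => ?_⟩
  · intro a ha
    obtain ⟨b, rfl⟩ := Ideal.mem_span_singleton'.1 ha
    rw [hψ, mul_comp, comp_scale, map_mul, map_mul, AdjoinRoot.mk_self, mul_zero, mul_zero]
  · rw [← hψ]
    rfl

theorem scale_inv (P : E[X]) {c : E} (hc : c ≠ 0) : (P.scaleRoots c).scaleRoots c⁻¹ = P := by
  rw [← scaleRoots_mul, mul_inv_cancel₀ hc, scaleRoots_one]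

theorem norm_scale (P : E[X]) {c : E} (hc : c ≠ 0) (h : E[X]) :
    Algebra.norm E (AdjoinRoot.mk (P.scaleRoots c) (h.comp (C c⁻¹ * X))) =
      Algebra.norm E (AdjoinRoot.mk P h) := by
  obtain ⟨φ, hφ⟩ := hom_ex P c
  obtain ⟨ψ, hψ⟩ : ∃ ψ : AdjoinRoot P →ₐ[E] AdjoinRoot (P.scaleRoots c), ∀ q : E[X],
      ψ (AdjoinRoot.mk _ q) = AdjoinRoot.mk (P.scaleRoots c) (q.comp (C c⁻¹ * X)) := by
    have h1 := hom_ex (P.scaleRoots c) c⁻¹
    rwa [scale_inv P hc] at h1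
  have h1 : φ.comp ψ = AlgHom.id E _ := by
    refine AlgHom.ext fun x => ?_
    obtain ⟨q, rfl⟩ := AdjoinRoot.mk_surjective x
    rw [AlgHom.comp_apply, hψ, hφ, cxx hc]
    rfl
  have h2 : ψ.comp φ = AlgHom.id E _ := by
    refine AlgHom.ext fun x => ?_
    obtain ⟨q, rfl⟩ := AdjoinRoot.mk_surjective x
    rw [AlgHom.comp_apply, hφ, hψ, cxx' hc]
    rfl
  have h3 := Algebra.norm_eq_of_algEquiv (AlgEquiv.ofAlgHom φ ψ h1 h2)
    (AdjoinRoot.mk (P.scaleRoots c) (h.comp (C c⁻¹ * X)))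
  rw [← h3]
  congr 1
  show φ (AdjoinRoot.mk (P.scaleRoots c) (h.comp (C c⁻¹ * X))) = _
  rw [hφ, cxx hc]

theorem loc_scale (H : Pool.Agent.H458.AG.S_LSC) {M : Type} [Field M] [CharZero E] (j : M →+* E)
    {P h : M[X]} {a : M} (ha : a ≠ 0) (hm : P.Monic) (ho : Odd P.natDegree)
    (h0 : LocIm E (P.map j) (h.map j)) :
    LocIm E ((P.scaleRoots (a ^ 2)).map j) ((h.comp (C (a ^ 2)⁻¹ * X)).map j) := by
  have e1 : (P.scaleRoots (a ^ 2)).map j = (P.map j).scaleRoots (j a ^ 2) := by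
    rw [map_scaleRoots, map_pow]
    rw [hm.leadingCoeff, map_one]
    exact one_ne_zero
  have ha' : j a ≠ 0 := fun h1 => ha (j.injective (h1.trans (map_zero j).symm))
  have h1 := H E ((P.scaleRoots (a ^ 2)).map j) (h.map j) (j a)⁻¹ (inv_ne_zero ha')
    ((monic_scaleRoots_iff _).2 hm |>.map j) (by
      rw [(monic_scaleRoots_iff _).2 hm |>.natDegree_map j, natDegree_scaleRoots]
      exact ho) (by
      rw [e1, inv_pow, scale_inv _ (pow_ne_zero 2 ha')]
      exact h0)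
  have e2 : (h.comp (C (a ^ 2)⁻¹ * X)).map j = (h.map j).comp (C ((j a)⁻¹ ^ 2) * X) := by
    rw [Polynomial.map_comp, Polynomial.map_mul, map_C, map_X, map_inv₀, map_pow, inv_pow]
  rw [e2]
  exact h1

end

theorem selsc (H : Pool.Agent.H458.AG.S_LSC) : Pool.Agent.H458.AG.S_SELSC := by
  intro M _ _ f e he hm ho h4 h hcop hnorm hloc hreal
  obtain ⟨P, hP⟩ : ∃ P : M[X], P = fF f := ⟨_, rfl⟩
  obtain ⟨a, ha⟩ : ∃ a : M, a = (e : M) := ⟨_, rfl⟩
  have ha0 : a ≠ 0 := by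
    rw [ha]
    exact Nat.cast_ne_zero.2 he.ne'
  have hc0 : a ^ 2 ≠ 0 := pow_ne_zero 2 ha0
  have hPm : P.Monic := by
    rw [hP]
    exact hm.map _
  have hPo : Odd P.natDegree := by
    rw [hP, hm.natDegree_map]
    exact ho
  have hG : fF (f.scaleRoots ((e ^ 2 : ℕ) : 𝓞 M)) = P.scaleRoots (a ^ 2) := by
    rw [Pool.Agent.N78.PF.fF_scale hm, hP, ha]
    congr 1
    push_cast
    ring
  rw [← hP] at hcop hnorm ⊢
  have h5 := h4 (h.comp (C (a ^ 2)⁻¹ * X))
  rw [hG] at h5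
  obtain ⟨s, t, hs⟩ := h5 (by
      obtain ⟨u, v, huv⟩ := hcop
      refine ⟨u.comp (C (a ^ 2)⁻¹ * X),
        v.comp (C (a ^ 2)⁻¹ * X) * C ((a ^ 2) ^ P.natDegree)⁻¹, ?_⟩
      have h6 := congrArg (fun p : M[X] => p.comp (C (a ^ 2)⁻¹ * X)) huv
      simp only [add_comp, mul_comp, one_comp] at h6
      rw [comp_scale' P hc0] at h6
      rw [mul_assoc]
      exact h6) (by
      rw [norm_scale P hc0]
      exact hnorm) (by
      intro w
      haveI := Pool.Agent.H459.UT.charzero_cpt w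
      have h6 := hloc w
      rw [← hP] at h6
      exact loc_scale H (algebraMap M (w.adicCompletion M)) ha0 hPm hPo h6) (by
      intro σ
      have h6 := hreal σ
      rw [← hP] at h6
      exact loc_scale H σ ha0 hPm hPo h6)
  refine ⟨s.comp (C (a ^ 2) * X), C ((a ^ 2) ^ P.natDegree) * t.comp (C (a ^ 2) * X), ?_⟩
  have h6 := congrArg (fun p : M[X] => p.comp (C (a ^ 2) * X)) hs
  simp only [sub_comp, mul_comp, pow_comp] at h6
  rw [comp_scale, cxx hc0] at h6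
  rw [h6]
  ring

end Pool.Agent.H295.AG458
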